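import Pool.Agent.Helper77.CR.BASE
import Pool.Agent.Helper40.CR.UNI

/-!
# Module CR-LIN: the angle form from the values of the potentials
-/

namespace Pool.Agent.Helper77.CR

open Pool.Agent.Helper9.FA (Item Cor wfP labels)
open Pool.Agent.Helper28.TX (PV Pot)

variable {α : Type}

/-! ### lists -/

lemma lin_split1 {K : Type} : ∀ (k : ℕ) (c : List K), k + 1 ≤ c.length →
    ∃ (l : List K) (x : K) (r : List K), c = l ++ x :: r ∧ l.length = k
  | 0, [], h => by simp at h
  | 0, x :: r, _ => ⟨[], x, r, rfl, rfl⟩
  | k + 1, [], h => by simp at h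
  | k + 1, y :: c, h => by
    obtain ⟨l, x, r, hc, hl⟩ := lin_split1 k c (by simpa using h)
    exact ⟨y :: l, x, r, by rw [hc]; rfl, by simp [hl]⟩

lemma lin_split3 {K : Type} (k : ℕ) (c : List K) (h : k + 3 ≤ c.length) :
    ∃ (l : List K) (x y z : K) (r : List K), c = l ++ x :: y :: z :: r ∧ l.length = k := by
  obtain ⟨l, x, r, hc, hl⟩ := lin_split1 k c (by omega)
  have h1 : c.length = k + 1 + r.length := by rw [hc]; simp [hl]; omega
  match r, h1 with
  | [], h1 => simp at h1; omega
  | [_], h1 => simp at h1; omega
  | y :: z :: r, _ => exact ⟨l, x, y, z, r, hc, hl⟩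

lemma lin_wf_inj {α : Type} : ∀ (P : List (Item α)) {n n' m : ℕ}, wfP n P m → wfP n' P m → n = n'
  | [], _, _, _, h, h' => by
    simp only [wfP] at h h'; omega
  | .cup k :: P, n, n', m, h, h' => by
    simp only [wfP] at h h'
    have := lin_wf_inj P h.2 h'.2
    omega
  | .cap k :: P, n, n', m, h, h' => by
    simp only [wfP] at h h'
    have := lin_wf_inj P h.2 h'.2
    omega
  | .box k _ :: P, n, n', m, h, h' => by
    simp only [wfP] at h h'
    exact lin_wf_inj P h.2 h'.2

lemma lin_pot_length {K : Type} {P : List (Item α)} {n : ℕ} (hP : wfP n P 1) {c0 c1 : K}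
    {c : List K} {θ : List (PV K)} {e : List (Bool × K × K)} (h : Pot c0 c1 P c θ e) :
    c.length = n + 1 := by
  obtain ⟨n', h1, h2⟩ := pot_wf h
  rw [h1, lin_wf_inj P hP h2]

/-! ### linearity -/

/-- the sum of the products -/
def linSz (c d : List ℝ) : ℝ := (List.zipWith (· * ·) c d).sum

lemma linSz_nil (d : List ℝ) : linSz [] d = 0 := by simp [linSz]

lemma linSz_cons (x y : ℝ) (c d : List ℝ) : linSz (x :: c) (y :: d) = x * y + linSz c d := by simp [linSz]

lemma linSz_append {l l' r r' : List ℝ} (h : l.length = l'.length) :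
    linSz (l ++ r) (l' ++ r') = linSz l l' + linSz r r' := by
  rw [linSz, List.zipWith_append h, List.sum_append]
  rfl

lemma linSz_lin (h g : ℕ → ℝ) (t : ℝ) : ∀ (c : List ℕ) (d : List ℝ),
    linSz (c.map fun x => h x + t * g x) d = linSz (c.map h) d + t * linSz (c.map g) d
  | [], d => by simp [linSz]
  | _ :: _, [] => by simp [linSz]
  | x :: c, y :: d => by
    simp only [List.map_cons, linSz_cons]
    have := linSz_lin h g t c d
    rw [this]
    ring

lemma lin_wsumA_cons (q : PV ℝ) (u : Cor ℝ) (θ : List (PV ℝ)) (us : List (Cor ℝ)) :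
    wsumA (q :: θ) (u :: us) = q.L * u.uL + q.B * u.uB + q.R * u.uR + q.T * u.uT + wsumA θ us := by
  simp [wsumA]

lemma lin_wsumA_lin (h g : ℕ → ℝ) (t : ℝ) : ∀ (θ : List (PV ℕ)) (us : List (Cor ℝ)),
    wsumA (θ.map (PV.map fun x => h x + t * g x)) us =
      wsumA (θ.map (PV.map h)) us + t * wsumA (θ.map (PV.map g)) us
  | [], us => by simp [wsumA]
  | _ :: _, [] => by simp [wsumA]
  | q :: θ, u :: us => by
    simp only [List.map_cons, lin_wsumA_cons]
    rw [lin_wsumA_lin h g t θ us]
    simp only [PV.map]
    ring

lemma lin_esum_lin (h g : ℕ → ℝ) (t : ℝ) : ∀ e : List (Bool × ℕ × ℕ),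
    ((mE (fun x => h x + t * g x) e).map fun y => if y.1 = true then -y.2.2 else y.2.1).sum =
      ((mE h e).map fun y => if y.1 = true then -y.2.2 else y.2.1).sum +
        t * ((mE g e).map fun y => if y.1 = true then -y.2.2 else y.2.1).sum
  | [] => by simp [mE]
  | ⟨b, x, y⟩ :: e => by
    have := lin_esum_lin h g t e
    simp only [mE, List.map_cons, List.map_map, List.sum_cons] at this ⊢
    rw [this]
    cases b <;> simp <;> ring

lemma lin_tsum_lin (h g : ℕ → ℝ) (t : ℝ) : ∀ θ : List (PV ℕ),
    ((θ.map (PV.map fun x => h x + t * g x)).map PV.T).sum =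
      ((θ.map (PV.map h)).map PV.T).sum + t * ((θ.map (PV.map g)).map PV.T).sum
  | [] => by simp
  | q :: θ => by
    have := lin_tsum_lin h g t θ
    simp only [List.map_cons, List.sum_cons]
    rw [this]
    simp only [PV.map]
    ring

lemma lin_val_lin (h g : ℕ → ℝ) (t : ℝ) (θ : List (PV ℕ)) (e : List (Bool × ℕ × ℕ))
    (us : List (Cor ℝ)) :
    val (θ.map (PV.map fun x => h x + t * g x)) (mE (fun x => h x + t * g x) e) us =
      val (θ.map (PV.map h)) (mE h e) us + t * val (θ.map (PV.map g)) (mE g e) us := by
  simp only [val]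
  rw [lin_wsumA_lin, lin_esum_lin, lin_tsum_lin]
  ring

lemma lin_val_box (q : PV ℝ) (u : Cor ℝ) (θ : List (PV ℝ)) (e : List (Bool × ℝ × ℝ))
    (us : List (Cor ℝ)) : val (q :: θ) e (u :: us) =
      q.L * u.uL + q.B * u.uB + q.R * u.uR + q.T * u.uT - Real.pi * q.T + val θ e us := by
  simp only [val, lin_wsumA_cons, List.map_cons, List.sum_cons]
  ring

lemma lin_val_cup (a m : ℝ) (θ : List (PV ℝ)) (e : List (Bool × ℝ × ℝ)) (us : List (Cor ℝ)) :
    val θ ((true, a, m) :: e) us = val θ e us - Real.pi * m := by
  simp only [val, List.map_cons, List.sum_cons, if_true]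
  ring

lemma lin_val_cap (a m : ℝ) (θ : List (PV ℝ)) (e : List (Bool × ℝ × ℝ)) (us : List (Cor ℝ)) :
    val θ ((false, a, m) :: e) us = val θ e us + Real.pi * a := by
  simp only [val, List.map_cons, List.sum_cons]
  simp
  ring

theorem angG_of_val {P : List (Item α)} {n : ℕ} (hP : wfP n P 1) {d : List ℝ} {us : List (Cor ℝ)}
    (hd : d.length = n + 1) (hu : us.length = (labels P).length)
    (h : ∀ (c0 c1 : ℝ) (c : List ℝ) (θ : List (PV ℝ)) (e : List (Bool × ℝ × ℝ)),
      Pot c0 c1 P c θ e → (List.zipWith (· * ·) c d).sum = val θ e us) :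
    AngG [0, 0] P d us := by
  induction P generalizing n d us with
  | nil =>
    simp only [wfP] at hP
    subst hP
    have hu' : us = [] := by
      simpa [labels] using hu
    subst hu'
    match d, hd with
    | [d0, d1], _ =>
      have h0 := h 1 0 _ _ _ Pot.nil
      have h1 := h 0 1 _ _ _ Pot.nil
      simp [val, wsumA] at h0 h1
      subst h0 h1
      exact AngG.nil
  | cons i P ih =>
    match i with
    | .cap k =>
      simp only [wfP] at hP
      obtain ⟨l, a, z, b, r, rfl, rfl⟩ := lin_split3 k d (by omega)
      have hlen : ∀ {c0 c1 : ℝ} {c : List ℝ} {θ : List (PV ℝ)} {e : List (Bool × ℝ × ℝ)},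
          Pot c0 c1 P c θ e → c.length = n - 2 + 1 := fun hp => lin_pot_length hP.2 hp
      have key : ∀ (c0 c1 : ℝ) (l' r' : List ℝ) (f : ℝ) (θ : List (PV ℝ))
          (e : List (Bool × ℝ × ℝ)), l'.length = l.length → Pot c0 c1 P (l' ++ f :: r') θ e →
          ∀ m, linSz l' l + f * a + m * z + f * b + linSz r' r = val θ e us + Real.pi * f := by
        intro c0 c1 l' r' f θ e hl hp m
        have h1 := h _ _ _ _ _ (by
          have := Pot.cap (m := m) hp
          rw [hl] at this
          exact this)
        rw [lin_val_cap] at h1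
        rw [← h1]
        change _ = linSz (l' ++ f :: m :: f :: r') (l ++ a :: z :: b :: r)
        rw [linSz_append hl, linSz_cons, linSz_cons, linSz_cons]
        ring
      have hz : z = 0 := by
        obtain ⟨c0, c1, c, θ, e, hU⟩ := exists_uni hP.2
        have hp := pot_map (fun _ => (0 : ℝ)) hU.pot
        have hl := hlen hp
        obtain ⟨l', f, r', hc, hl'⟩ := lin_split1 l.length (c.map fun _ => (0 : ℝ)) (by
          rw [hl]; omega)
        rw [hc] at hp
        have h1 := key _ _ l' r' f _ _ hl' hp 0
        have h2 := key _ _ l' r' f _ _ hl' hp 1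
        linarith
      subst hz
      have hlr : l.length + r.length + 1 = n - 2 + 1 := by
        simp only [List.length_append, List.length_cons] at hd
        omega
      refine AngG.cap (x := a + b - Real.pi) (ih hP.2 ?_ hu ?_) (by ring)
      · simp only [List.length_append, List.length_cons]
        omega
      · intro c0 c1 c θ e hp
        obtain ⟨l', f, r', rfl, hl'⟩ := lin_split1 l.length c (by rw [hlen hp]; omega)
        have h1 := key _ _ l' r' f _ _ hl' hp 0
        change linSz (l' ++ f :: r') (l ++ (a + b - Real.pi) :: r) = _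
        rw [linSz_append hl', linSz_cons]
        linarith
    | .box k a =>
      simp only [wfP] at hP
      obtain ⟨l, dL, dB, dR, r, rfl, rfl⟩ := lin_split3 k d (by omega)
      obtain ⟨u, us', rfl⟩ : ∃ u us', us = u :: us' := by
        cases us with
        | nil => simp [labels] at hu
        | cons u us' => exact ⟨u, us', rfl⟩
      have hlen : ∀ {c0 c1 : ℝ} {c : List ℝ} {θ : List (PV ℝ)} {e : List (Bool × ℝ × ℝ)},
          Pot c0 c1 P c θ e → c.length = n + 1 := fun hp => lin_pot_length hP.2 hp
      have key : ∀ (c0 c1 : ℝ) (l' r' : List ℝ) (L T R : ℝ) (θ : List (PV ℝ))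
          (e : List (Bool × ℝ × ℝ)), l'.length = l.length →
          Pot c0 c1 P (l' ++ L :: T :: R :: r') θ e →
          ∀ B, linSz l' l + L * dL + B * dB + R * dR + linSz r' r =
            L * u.uL + B * u.uB + R * u.uR + T * u.uT - Real.pi * T + val θ e us' := by
        intro c0 c1 l' r' L T R θ e hl hp B
        have h1 := h _ _ _ _ _ (by
          have := Pot.box (q := ⟨L, B, R, T⟩) (x := a) hp
          rw [hl] at this
          exact this)
        rw [lin_val_box] at h1
        simp only at h1
        rw [← h1]
        change _ = linSz (l' ++ L :: B :: R :: r') (l ++ dL :: dB :: dR :: r)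
        rw [linSz_append hl, linSz_cons, linSz_cons, linSz_cons]
        ring
      have hz : dB = u.uB := by
        obtain ⟨c0, c1, c, θ, e, hU⟩ := exists_uni hP.2
        have hp := pot_map (fun _ => (0 : ℝ)) hU.pot
        have hl := hlen hp
        obtain ⟨l', L, T, R, r', hc, hl'⟩ := lin_split3 l.length (c.map fun _ => (0 : ℝ)) (by
          rw [hl]; omega)
        rw [hc] at hp
        have h1 := key _ _ l' r' L T R _ _ hl' hp 0
        have h2 := key _ _ l' r' L T R _ _ hl' hp 1
        linarith
      subst hz
      have hlr : l.length + r.length + 3 = n + 1 := by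
        simp only [List.length_append, List.length_cons] at hd
        omega
      have h3 : AngG [0, 0] P (l ++ (dL - u.uL) :: (Real.pi - u.uT) :: (dR - u.uR) :: r) us' := by
        refine ih hP.2 ?_ ?_ ?_
        · simp only [List.length_append, List.length_cons]
          omega
        · simpa [labels] using hu
        · intro c0 c1 c θ e hp
          obtain ⟨l', L, T, R, r', rfl, hl'⟩ := lin_split3 l.length c (by rw [hlen hp]; omega)
          have h1 := key _ _ l' r' L T R _ _ hl' hp 0
          change linSz (l' ++ L :: T :: R :: r')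
            (l ++ (dL - u.uL) :: (Real.pi - u.uT) :: (dR - u.uR) :: r) = _
          rw [linSz_append hl', linSz_cons, linSz_cons, linSz_cons]
          linarith
      have h4 := AngG.box (e := a) h3
      rw [sub_add_cancel, sub_add_cancel] at h4
      exact h4
    | .cup k =>
      simp only [wfP] at hP
      obtain ⟨l, y, r, rfl, rfl⟩ := lin_split1 k d (by omega)
      have hlr : l.length + r.length + 1 = n + 1 := by
        simp only [List.length_append, List.length_cons] at hd
        omega
      obtain ⟨c0, c1, c, θ, e, hU⟩ := exists_uni hP.2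
      have hl := lin_pot_length hP.2 hU.pot
      obtain ⟨l', i1, im, i2, r', hc, hl'⟩ := lin_split3 l.length c (by rw [hl]; omega)
      set D : (ℕ → ℝ) → ℝ := fun g => val (θ.map (PV.map g)) (mE g e) us - linSz (l'.map g) l -
        linSz (r'.map g) r - Real.pi * g im - y * g i1 with hD
      have hDlin : ∀ (g g' : ℕ → ℝ) (t : ℝ), D (fun x => g x + t * g' x) = D g + t * D g' := by
        intro g g' t
        simp only [hD]
        rw [lin_val_lin, linSz_lin, linSz_lin]
        ring
      have hD0 : ∀ g : ℕ → ℝ, g i1 = g i2 → D g = 0 := by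
        intro g hg
        have hp := pot_map g hU.pot
        rw [hc] at hp
        simp only [List.map_append, List.map_cons] at hp
        rw [← hg] at hp
        have h1 := h _ _ _ _ _ (by
          have := Pot.cup hp
          rw [List.length_map, hl'] at this
          exact this)
        rw [lin_val_cup] at h1
        change linSz (l'.map g ++ g i1 :: r'.map g) (l ++ y :: r) = _ at h1
        rw [linSz_append (by rw [List.length_map, hl']), linSz_cons] at h1
        simp only [hD]
        linarith
      have hlam : ∃ lam : ℝ, ∀ g : ℕ → ℝ, D g = lam * (g i2 - g i1) := by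
        by_cases hi : i1 = i2
        · refine ⟨0, fun g => ?_⟩
          rw [hD0 g (by rw [hi]), zero_mul]
        · refine ⟨D (fun x => if x = i2 then 1 else 0), fun g => ?_⟩
          have h1 := hDlin g (fun x => if x = i2 then 1 else 0) (-(g i2 - g i1))
          have h2 : D (fun x => g x + -(g i2 - g i1) * (if x = i2 then 1 else 0)) = 0 := by
            apply hD0
            simp [hi]
          rw [h2] at h1
          linarith
      obtain ⟨lam, hlam⟩ := hlam
      have h3 : AngG [0, 0] P (l ++ (y - lam) :: Real.pi :: lam :: r) us := by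
        refine ih hP.2 ?_ hu ?_
        · simp only [List.length_append, List.length_cons]
          omega
        · intro k0 k1 c'' θ'' e'' hp
          obtain ⟨g, -, -, rfl, rfl, rfl⟩ := hU.uni _ _ _ _ _ _ hp
          rw [hc]
          simp only [List.map_append, List.map_cons]
          change linSz (l'.map g ++ g i1 :: g im :: g i2 :: r'.map g)
            (l ++ (y - lam) :: Real.pi :: lam :: r) = _
          rw [linSz_append (by rw [List.length_map, hl']), linSz_cons, linSz_cons, linSz_cons]
          have h1 := hlam g
          simp only [hD] at h1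
          linarith
      have h4 := AngG.cup h3
      rw [sub_add_cancel] at h4
      exact h4

end Pool.Agent.Helper77.CR
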